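import Mathlib.Analysis.InnerProductSpace.PiL2
import Mathlib.GroupTheory.Solvable
import Mathlib.GroupTheory.Perm.Sign
import Mathlib.NumberTheory.Real.GoldenRatio

/-!
Soluble and subsoluble sets, and the vertex sets of the 120-cell and the 600-cell in their
standard coordinates.
-/

namespace Pool.Agent.Work.MP_c35292_co

open Real

/-- A finite set `Y` in Euclidean space is soluble if some soluble group of isometries of the
space, each mapping `Y` onto itself, acts transitively on `Y`. -/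
def IsSolubleSet {n : ℕ} (Y : Set (EuclideanSpace ℝ (Fin n))) : Prop :=
  Y.Finite ∧
    ∃ S : Subgroup (EuclideanSpace ℝ (Fin n) ≃ᵢ EuclideanSpace ℝ (Fin n)),
      Group.IsSolvable S ∧ (∀ g ∈ S, g '' Y = Y) ∧ ∀ y ∈ Y, ∀ z ∈ Y, ∃ g ∈ S, g y = z

/-- `X` is subsoluble if some soluble set, in some dimension, contains the image of `X` under an
isometric embedding of the ambient space. -/
def IsSubsoluble {d : ℕ} (X : Set (EuclideanSpace ℝ (Fin d))) : Prop :=
  ∃ (n : ℕ) (Y : Set (EuclideanSpace ℝ (Fin n))), IsSolubleSet Y ∧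
    ∃ f : EuclideanSpace ℝ (Fin d) → EuclideanSpace ℝ (Fin n), Isometry f ∧ f '' X ⊆ Y

/-- All points obtained from `v` by permuting the coordinates and changing signs. -/
def allPerms (v : Fin 4 → ℝ) : Set (EuclideanSpace ℝ (Fin 4)) :=
  {x | ∃ σ : Equiv.Perm (Fin 4), ∀ i, x i = v (σ i) ∨ x i = - v (σ i)}

/-- All points obtained from `v` by an even permutation of the coordinates and changing signs. -/
def evenPerms (v : Fin 4 → ℝ) : Set (EuclideanSpace ℝ (Fin 4)) :=
  {x | ∃ σ : Equiv.Perm (Fin 4), Equiv.Perm.sign σ = 1 ∧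
    ∀ i, x i = v (σ i) ∨ x i = - v (σ i)}

/-- The 600 vertices of the 120-cell of circumradius `√8`, in the standard coordinates. -/
def cell120 : Set (EuclideanSpace ℝ (Fin 4)) :=
  allPerms ![0, 0, 2, 2] ∪
  allPerms ![1, 1, 1, √5] ∪
  allPerms ![goldenRatio⁻¹ ^ 2, goldenRatio, goldenRatio, goldenRatio] ∪
  allPerms ![goldenRatio⁻¹, goldenRatio⁻¹, goldenRatio⁻¹, goldenRatio ^ 2] ∪
  evenPerms ![0, goldenRatio⁻¹ ^ 2, 1, goldenRatio ^ 2] ∪
  evenPerms ![0, goldenRatio⁻¹, goldenRatio, √5] ∪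
  evenPerms ![goldenRatio⁻¹, 1, goldenRatio, 2]

/-- The 120 vertices of the 600-cell of circumradius `2`, in the standard coordinates. -/
def cell600 : Set (EuclideanSpace ℝ (Fin 4)) :=
  allPerms ![2, 0, 0, 0] ∪
  allPerms ![1, 1, 1, 1] ∪
  evenPerms ![goldenRatio, 1, goldenRatio⁻¹, 0]

end Pool.Agent.Work.MP_c35292_co
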