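import Pool.Agent.Work.MP_c35292_co.Data120

/-!
The 120-cell embeds in an orbit of an iterated wreath product of finite soluble groups.
-/

namespace Pool.Agent.Work.MP_c35292_co

open Quaternion Real Subgroup

/-- Vertex number `k`. -/
def pt (k : ℕ) : Q8 := ptOf PTS k

/-- The colour of vertex number `k`. -/
def col (k : ℕ) : ℕ := if k < 120 then 0 else if k < 360 then 1 else 2

/-- The first vertex of each colour. -/
def rep (c : ℕ) : ℕ := if c = 0 then 0 else if c = 1 then 120 else 360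

/-- Test that `y` is obtained from `x` by move number `m`. -/
def mv (m : ℕ) (x y : Q8) : Bool :=
  if m = 0 then rel qi x y else if m = 1 then rel qj x y else if m = 2 then rel qw x y
  else if m = 3 then rel x qp y else rel x qi y

/-- The binary dihedral group of order 20. -/
noncomputable def DD : Subgroup (unitary ℍ[ℝ]) := closure (insert (uu qi) (insert (uu qp) ∅))

lemma p5 : uu qp ^ (4 + 1) = 1 := by
  have h2 : uu qp * uu qp = uu ⟨0, -1, 0, 0, -1, 1, 1, 0⟩ := uu_mul (by decide)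
  have h4 : uu ⟨0, -1, 0, 0, -1, 1, 1, 0⟩ * uu ⟨0, -1, 0, 0, -1, 1, 1, 0⟩ =
    uu ⟨-1, 1, 0, 0, -1, 0, 0, -1⟩ := uu_mul (by decide)
  have h5 : uu ⟨-1, 1, 0, 0, -1, 0, 0, -1⟩ * uu qp = uu qone := uu_mul (by decide)
  rw [show uu qp ^ (4 + 1) = (uu qp * uu qp) * (uu qp * uu qp) * uu qp by
    simp only [pow_succ, pow_zero, one_mul, mul_assoc], h2, h4, h5, uu_qone]

lemma fs_DD : FS DD := by
  have h1 : FS (closure (insert (uu qp) (∅ : Set (unitary ℍ[ℝ])))) :=
    FS.empty.adj _ (by simp) 4 p5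
  refine h1.adj _ ?_ 3 i4
  rintro x (rfl | hx)
  · have e1 : uu qi * uu qp = uu ⟨0, 0, -1, 1, 0, -1, 1, 0⟩ := uu_mul (by decide)
    have e2 : uu qp * uu ⟨0, 0, -1, 1, 0, -1, 1, 0⟩ = uu qi := uu_mul (by decide)
    have : uu qi * uu qp * (uu qi)⁻¹ = (uu qp)⁻¹ := by
      rw [mul_inv_eq_iff_eq_mul, eq_inv_mul_iff_mul_eq, e1, e2]
    rw [this]
    exact inv_mem (subset_closure (by simp))
  · exact hx.elim

/-- The soluble group acting on the quaternions. -/
noncomputable def SS : Subgroup (ℍ[ℝ] ≃ₗᵢ[ℝ] ℍ[ℝ]) := (TT.prod DD).map lr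

lemma fs_SS : FS SS := (fs_TT.prod fs_DD).map lr

lemma orb_mv {m : ℕ} {x y : Q8} (h : mv m x y = true) : Orb SS (emb x) (emb y) := by
  unfold mv at h
  split_ifs at h
  · exact orb_left (by decide) qi_mem h
  · exact orb_left (by decide) qj_mem h
  · exact orb_left (by decide) qw_mem h
  · exact orb_right (by decide) (subset_closure (by simp)) h
  · exact orb_right (by decide) (subset_closure (by simp)) h

/-- The coordinates packed into one integer. -/
def pk (x : Q8) : ℤ :=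
  x.a0 + 1024 * (x.a1 + 1024 * (x.b0 + 1024 * (x.b1 + 1024 * (x.c0 + 1024 * (x.c1 + 1024 *
    (x.d0 + 1024 * x.d1))))))

/-- All coordinates are bounded. -/
def bd (c : ℤ) (x : Q8) : Prop :=
  |x.a0| ≤ c ∧ |x.a1| ≤ c ∧ |x.b0| ≤ c ∧ |x.b1| ≤ c ∧ |x.c0| ≤ c ∧ |x.c1| ≤ c ∧ |x.d0| ≤ c ∧
    |x.d1| ≤ c

/-- A digit of a point code. -/
def dN (n i : ℕ) : ℕ := Nat.mod (Nat.shiftRight n (Nat.mul 3 i)) 8

lemma dg_eq (n i : ℕ) : dg n i = (dN n i : ℤ) - 2 := Int.subNatNat_eq_coe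

lemma bd_dec (n : ℕ) : bd 5 (dec n) := by
  have h : ∀ i, |dg n i| ≤ 5 := fun i => by
    have : dN n i < 8 := Nat.mod_lt _ (by decide)
    rw [dg_eq, abs_le]
    omega
  exact ⟨h 0, h 1, h 2, h 3, h 4, h 5, h 6, h 7⟩

lemma m_bd {x0 x1 y0 y1 : ℤ} (h0 : |x0| ≤ 5) (h1 : |x1| ≤ 5) (h2 : |y0| ≤ 5) (h3 : |y1| ≤ 5) :
    (-75 ≤ m0 x0 x1 y0 y1 ∧ m0 x0 x1 y0 y1 ≤ 75) ∧ -75 ≤ m1 x0 x1 y0 y1 ∧ m1 x0 x1 y0 y1 ≤ 75 := by
  have e : ∀ {a b : ℤ}, |a| ≤ 5 → |b| ≤ 5 → -25 ≤ a * b ∧ a * b ≤ 25 := fun ha hb =>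
    abs_le.1 ((abs_mul _ _).trans_le (mul_le_mul ha hb (abs_nonneg _) (by decide)))
  have := e h0 h2
  have := e h1 h3
  have := e h0 h3
  have := e h1 h2
  unfold m0 m1
  omega

lemma bd_four {a b c d : ℤ} (ha : -75 ≤ a ∧ a ≤ 75) (hb : -75 ≤ b ∧ b ≤ 75)
    (hc : -75 ≤ c ∧ c ≤ 75) (hd : -75 ≤ d ∧ d ≤ 75) :
    |a - b - c - d| ≤ 300 ∧ |a + b + c - d| ≤ 300 ∧ |a - b + c + d| ≤ 300 ∧
      |a + b - c + d| ≤ 300 := by
  simp only [abs_le]
  omega

lemma bd_qmul {x y : Q8} (hx : bd 5 x) (hy : bd 5 y) : bd 300 (qmul x y) := by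
  obtain ⟨a0, a1, b0, b1, c0, c1, d0, d1⟩ := hx
  obtain ⟨e0, e1, f0, f1, g0, g1, k0, k1⟩ := hy
  exact ⟨(bd_four (m_bd a0 a1 e0 e1).1 (m_bd b0 b1 f0 f1).1 (m_bd c0 c1 g0 g1).1
      (m_bd d0 d1 k0 k1).1).1,
    (bd_four (m_bd a0 a1 e0 e1).2 (m_bd b0 b1 f0 f1).2 (m_bd c0 c1 g0 g1).2
      (m_bd d0 d1 k0 k1).2).1,
    (bd_four (m_bd a0 a1 f0 f1).1 (m_bd b0 b1 e0 e1).1 (m_bd c0 c1 k0 k1).1
      (m_bd d0 d1 g0 g1).1).2.1,
    (bd_four (m_bd a0 a1 f0 f1).2 (m_bd b0 b1 e0 e1).2 (m_bd c0 c1 k0 k1).2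
      (m_bd d0 d1 g0 g1).2).2.1,
    (bd_four (m_bd a0 a1 g0 g1).1 (m_bd b0 b1 k0 k1).1 (m_bd c0 c1 e0 e1).1
      (m_bd d0 d1 f0 f1).1).2.2.1,
    (bd_four (m_bd a0 a1 g0 g1).2 (m_bd b0 b1 k0 k1).2 (m_bd c0 c1 e0 e1).2
      (m_bd d0 d1 f0 f1).2).2.2.1,
    (bd_four (m_bd a0 a1 k0 k1).1 (m_bd b0 b1 g0 g1).1 (m_bd c0 c1 f0 f1).1
      (m_bd d0 d1 e0 e1).1).2.2.2,
    (bd_four (m_bd a0 a1 k0 k1).2 (m_bd b0 b1 g0 g1).2 (m_bd c0 c1 f0 f1).2
      (m_bd d0 d1 e0 e1).2).2.2.2⟩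

lemma qeq_of_pk {w z : Q8} (hw : bd 300 w) (hz : bd 5 z) (h : pk w = 2 * pk z) :
    qeq w (dbl z) = true := by
  simp only [bd, abs_le, pk] at hw hz h
  simp only [qeq, dbl, Bool.and_eq_true, decide_eq_true_eq]
  have h0 : w.a0 = 2 * z.a0 := by omega
  have h1 : w.a1 = 2 * z.a1 := by omega
  have h2 : w.b0 = 2 * z.b0 := by omega
  have h3 : w.b1 = 2 * z.b1 := by omega
  have h4 : w.c0 = 2 * z.c0 := by omega
  have h5 : w.c1 = 2 * z.c1 := by omega
  have h6 : w.d0 = 2 * z.d0 := by omega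
  exact ⟨⟨⟨⟨⟨⟨⟨h0, h1⟩, h2⟩, h3⟩, h4⟩, h5⟩, h6⟩, by omega⟩

/-- The unit vectors. -/
def eb (i : ℕ) : Q8 := dec (4793490 + 8 ^ i)

/-- A linear form in the digits. -/
def lin (q : ℕ → ℕ) (n : ℕ) : ℕ :=
  Nat.add (Nat.mul (dN n 0) (q 0))
    (Nat.add (Nat.mul (dN n 1) (q 1))
    (Nat.add (Nat.mul (dN n 2) (q 2))
    (Nat.add (Nat.mul (dN n 3) (q 3))
    (Nat.add (Nat.mul (dN n 4) (q 4))
    (Nat.add (Nat.mul (dN n 5) (q 5))
    (Nat.add (Nat.mul (dN n 6) (q 6)) (Nat.mul (dN n 7) (q 7))))))))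

/-- The columns of a linear map, made positive. -/
def cols (F : Q8 → Q8) (i : ℕ) : ℕ := (pk (F (eb i)) + 1237940039285380274899124224).toNat

/-- Fast test for `F x = 2 z`. -/
def fast (F : Q8 → Q8) (n m : ℕ) : Bool :=
  Nat.beq (Nat.add (lin (cols F) n) 19807045355548761288431636484)
    (Nat.add (Nat.add (lin (fun i => Nat.pow 2 (Nat.succ (Nat.mul 10 i))) m)
      (lin (fun _ => 1237940039285380274899124224) n)) (lin (cols F) 4793490))

lemma fast_sound {F : Q8 → Q8} (hb : ∀ x, bd 5 x → bd 300 (F x))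
    (hF : ∀ x, pk (F x) = x.a0 * pk (F (eb 0)) + x.a1 * pk (F (eb 1)) + x.b0 * pk (F (eb 2)) +
      x.b1 * pk (F (eb 3)) + x.c0 * pk (F (eb 4)) + x.c1 * pk (F (eb 5)) + x.d0 * pk (F (eb 6)) +
      x.d1 * pk (F (eb 7))) {n m : ℕ} (h : fast F n m = true) :
    qeq (F (dec n)) (dbl (dec m)) = true := by
  refine qeq_of_pk (hb _ (bd_dec n)) (bd_dec m) ?_
  have hc : ∀ i, (cols F i : ℤ) = pk (F (eb i)) + 1237940039285380274899124224 := fun i => by
    have := hb _ (bd_dec (4793490 + 8 ^ i))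
    refine Int.toNat_of_nonneg ?_
    simp only [bd, abs_le] at this
    unfold pk eb
    omega
  have h1 := congrArg (Nat.cast : ℕ → ℤ) (Nat.eq_of_beq_eq_true h)
  have h2 : ∀ i < 8, dN 4793490 i = 2 := by decide
  simp only [lin, Nat.add_eq, Nat.mul_eq, Nat.pow_eq, Nat.cast_add, Nat.cast_mul, hc,
    h2 0 (by decide), h2 1 (by decide), h2 2 (by decide), h2 3 (by decide), h2 4 (by decide),
    h2 5 (by decide), h2 6 (by decide), h2 7 (by decide)] at h1
  rw [hF, pk.eq_1 (dec m)]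
  simp only [dec, dg_eq]
  push_cast at h1
  linear_combination h1

lemma eb_eq : eb 0 = ⟨1, 0, 0, 0, 0, 0, 0, 0⟩ ∧ eb 1 = ⟨0, 1, 0, 0, 0, 0, 0, 0⟩ ∧
    eb 2 = ⟨0, 0, 1, 0, 0, 0, 0, 0⟩ ∧ eb 3 = ⟨0, 0, 0, 1, 0, 0, 0, 0⟩ ∧
    eb 4 = ⟨0, 0, 0, 0, 1, 0, 0, 0⟩ ∧ eb 5 = ⟨0, 0, 0, 0, 0, 1, 0, 0⟩ ∧
    eb 6 = ⟨0, 0, 0, 0, 0, 0, 1, 0⟩ ∧ eb 7 = ⟨0, 0, 0, 0, 0, 0, 0, 1⟩ := by
  refine ⟨?_, ?_, ?_, ?_, ?_, ?_, ?_, ?_⟩ <;> exact qeq_eq (by decide +kernel)

lemma fast_left {g : Q8} (hg : bd 5 g) {n m : ℕ} (h : fast (qmul g) n m = true) :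
    rel g (dec n) (dec m) = true := by
  refine fast_sound (fun x hx => bd_qmul hg hx) (fun x => ?_) h
  simp only [eb_eq, pk, qmul, m0, m1]
  ring

lemma fast_right {g : Q8} (hg : bd 5 g) {n m : ℕ} (h : fast (fun x => qmul x g) n m = true) :
    rel (dec n) g (dec m) = true := by
  refine fast_sound (F := fun x => qmul x g) (fun x hx => bd_qmul hx hg) (fun x => ?_) h
  simp only [eb_eq, pk, qmul, m0, m1]
  ring

lemma allLt_mono {f g : ℕ → Bool} {n : ℕ} (h : allLt f n = true)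
    (hfg : ∀ k < n, f k = true → g k = true) : allLt g n = true := by
  induction n with
  | zero => rfl
  | succ n ih =>
    simp only [allLt, Bool.and_eq_true] at h ⊢
    exact ⟨hfg n (by omega) h.1, ih h.2 fun k hk => hfg k (by omega)⟩

/-- Application after evaluating the argument. -/
def force (n : ℕ) (f : ℕ → Bool) : Bool := Nat.rec (f 0) (fun m _ => f (Nat.succ m)) n

lemma force_eq (n : ℕ) (f : ℕ → Bool) : force n f = f n := by cases n <;> rfl

/-- The code of vertex number `k`. -/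
def cd (k : ℕ) : ℕ := Nat.mod (Nat.shiftRight PTS (Nat.mul 24 k)) 16777216

/-- Fast form of `mv`. -/
def mvF (m x y : ℕ) : Bool :=
  if m = 0 then fast (qmul qi) x y else if m = 1 then fast (qmul qj) x y
  else if m = 2 then fast (qmul qw) x y
  else if m = 3 then fast (fun x => qmul x qp) x y else fast (fun x => qmul x qi) x y

lemma mvF_sound {m x y : ℕ} (h : mvF m x y = true) : mv m (dec x) (dec y) = true := by
  unfold mvF at h
  unfold mv
  split_ifs at h ⊢
  exacts [fast_left (by unfold bd; decide) h, fast_left (by unfold bd; decide) h,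
    fast_left (by unfold bd; decide) h, fast_right (by unfold bd; decide) h,
    fast_right (by unfold bd; decide) h]

lemma chk_tree : allLt (fun k => decide (k = rep (col k)) ||
    (decide (tb PAR k < k) && decide (col (tb PAR k) = col k) &&
      mv (tb MOV k) (pt (tb PAR k)) (pt k))) 600 = true := by
  refine allLt_mono (f := fun k => decide (k = rep (col k)) ||
    (decide (tb PAR k < k) && decide (col (tb PAR k) = col k) &&
      mvF (tb MOV k) (cd (tb PAR k)) (cd k))) (by decide +kernel) fun k _ h => ?_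
  simp only [Bool.or_eq_true, Bool.and_eq_true] at h ⊢
  exact h.imp_right fun h => ⟨h.1, mvF_sound h.2⟩

lemma orb_rep : ∀ k < 600, Orb SS (emb (pt (rep (col k)))) (emb (pt k)) := by
  intro k
  induction k using Nat.strong_induction_on with
  | _ k ih =>
    intro hk
    have := allLt_spec chk_tree k hk
    simp only [Bool.or_eq_true, Bool.and_eq_true, decide_eq_true_eq] at this
    rcases this with h | ⟨⟨h1, h2⟩, h3⟩
    · rw [← h]; exact Orb.refl _ _
    · have := ih _ h1 (h1.trans hk)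
      rw [h2] at this
      exact this.trans (orb_mv h3)

lemma orb_col {k l : ℕ} (hk : k < 600) (hl : l < 600) (h : col k = col l) :
    Orb SS (emb (pt k)) (emb (pt l)) := by
  have h1 := orb_rep k hk
  rw [h] at h1
  exact h1.symm.trans (orb_rep l hl)

/-- Translation in the field with eight elements. -/
def tau (a : ℕ) (h : ∀ j : Fin 8, ((j.val ^^^ a) % 8 ^^^ a) % 8 = j.val) : Equiv.Perm (Fin 8) where
  toFun j := ⟨(j.val ^^^ a) % 8, Nat.mod_lt _ (by decide)⟩
  invFun j := ⟨(j.val ^^^ a) % 8, Nat.mod_lt _ (by decide)⟩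
  left_inv j := Fin.ext (h j)
  right_inv j := Fin.ext (h j)

/-- Translation by `1`. -/
def t1 : Equiv.Perm (Fin 8) := tau 1 (by decide)
/-- Translation by `2`. -/
def t2 : Equiv.Perm (Fin 8) := tau 2 (by decide)
/-- Translation by `4`. -/
def t4 : Equiv.Perm (Fin 8) := tau 4 (by decide)

/-- Multiplication by a generator. -/
def mu : Equiv.Perm (Fin 8) where
  toFun j := ⟨(MU >>> (3 * j.val)) % 8, Nat.mod_lt _ (by decide)⟩
  invFun j := ⟨(MUI >>> (3 * j.val)) % 8, Nat.mod_lt _ (by decide)⟩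
  left_inv := by decide +kernel
  right_inv := by decide +kernel

/-- The affine group of the field with eight elements. -/
def H1 : Subgroup (Equiv.Perm (Fin 8)) :=
  closure (insert mu (insert t4 (insert t2 (insert t1 ∅))))

lemma fs_H1 : FS H1 := by
  have h1 : FS (closure (insert t1 (∅ : Set (Equiv.Perm (Fin 8))))) :=
    FS.empty.adj _ (by simp) 1 (by decide +kernel)
  have h2 : FS (closure (insert t2 (insert t1 (∅ : Set (Equiv.Perm (Fin 8)))))) := by
    refine h1.adj _ ?_ 1 (by decide +kernel)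
    rintro x (rfl | hx)
    · rw [show t2 * t1 * t2⁻¹ = t1 by decide +kernel]
      exact subset_closure (by simp)
    · exact hx.elim
  have h3 : FS (closure (insert t4 (insert t2 (insert t1 (∅ : Set (Equiv.Perm (Fin 8))))))) := by
    refine h2.adj _ ?_ 1 (by decide +kernel)
    rintro x (rfl | rfl | hx)
    · rw [show t4 * t2 * t4⁻¹ = t2 by decide +kernel]
      exact subset_closure (by simp)
    · rw [show t4 * t1 * t4⁻¹ = t1 by decide +kernel]
      exact subset_closure (by simp)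
    · exact hx.elim
  refine h3.adj _ ?_ 6 (by decide +kernel)
  rintro x (rfl | rfl | rfl | hx)
  · rw [show mu * t4 * mu⁻¹ = t1 * t2 by decide +kernel]
    exact mul_mem (subset_closure (by simp)) (subset_closure (by simp))
  · rw [show mu * t2 * mu⁻¹ = t4 by decide +kernel]
    exact subset_closure (by simp)
  · rw [show mu * t1 * mu⁻¹ = t2 by decide +kernel]
    exact subset_closure (by simp)
  · exact hx.elim

/-- Element number `c` of the affine group. -/
def hf (c : ℕ) : Equiv.Perm (Fin 8) := t1 ^ (c % 2) * t2 ^ (c / 2 % 2) * t4 ^ (c / 4 % 2) * mu ^ (c / 8)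

lemma hf_mem (c : ℕ) : hf c ∈ H1 :=
  mul_mem (mul_mem (mul_mem (pow_mem (subset_closure (by simp)) _)
    (pow_mem (subset_closure (by simp)) _)) (pow_mem (subset_closure (by simp)) _))
    (pow_mem (subset_closure (by simp)) _)

/-- The cyclic group of order five. -/
def H2 : Subgroup (Equiv.Perm (Fin 5)) := closure (insert (finRotate 5) ∅)

lemma fs_H2 : FS H2 := FS.empty.adj _ (by simp) 4 (by decide +kernel)

/-- Index of the `j`-th coordinate of the first embedding. -/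
def ix (k j : ℕ) : ℕ := if j < 6 then tb TR (600 * j + k) else 360

lemma chk_tr : allLt (fun j => allLt (fun k => decide (tb TR (600 * j + k) < 600) &&
    rel (pt k) (qr j) (pt (tb TR (600 * j + k)))) 600) 6 = true := by
  have hb : ∀ j < 6, bd 5 (qr j) := by unfold bd; decide
  refine allLt_mono (f := fun j => allLt (fun k => decide (tb TR (600 * j + k) < 600) &&
    fast (fun x => qmul x (qr j)) (cd k) (cd (tb TR (600 * j + k)))) 600) (by decide +kernel)
    fun j hj h => allLt_mono h fun k _ h => ?_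
  simp only [Bool.and_eq_true] at h ⊢
  exact ⟨h.1, fast_right (hb j hj) h.2⟩

lemma chk_tp : allLt (fun k => decide (tb TP k < 600) && rel qp (pt k) (pt (tb TP k))) 600
    = true := by
  refine allLt_mono (f := fun k => decide (tb TP k < 600) && fast (qmul qp) (cd k) (cd (tb TP k)))
    (by decide +kernel) fun k _ h => ?_
  simp only [Bool.and_eq_true] at h ⊢
  exact ⟨h.1, fast_left (by unfold bd; decide) h.2⟩

lemma chk_pat0 : allLt (fun k => decide (∀ j : Fin 8, col (ix 0 j) = col (ix k j))) 120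
    = true := by
  decide +kernel

lemma chk_pat1 : allLt (fun k => decide (k < 120) ||
    decide (∀ j : Fin 8, col (ix 120 (hf (tb TH k) j)) = col (ix k j))) 600 = true := by
  refine allLt_mono (f := fun k => decide (k < 120) || force (tb TH k) fun c =>
    decide (∀ j : Fin 8, col (ix 120 (hf c j)) = col (ix k j))) (by decide +kernel) fun k _ h => ?_
  rwa [force_eq] at h

lemma chk_pat2 : allLt (fun k => decide (∀ i : Fin 5,
    ((tb TP)^[((finRotate 5 ^ tb TS k) i).val] 0 < 120 ↔ (tb TP)^[i.val] k < 120))) 600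
    = true := by
  decide +kernel

lemma chk_idx : allLt (fun b => allLt (fun s => (decide (4 ≤ b) && decide (12 ≤ s)) ||
    allLt (fun e => decide (tb IDX ((24 * b + s) * 16 + e) < 600) &&
      qeq (mkPt (bv0 b) (bv1 b) s e) (pt (tb IDX ((24 * b + s) * 16 + e)))) 16) 24) 7 = true := by
  have h : allLt (fun b => allLt (fun s => (decide (4 ≤ b) && decide (12 ≤ s)) ||
      allLt (fun e => force (tb IDX ((24 * b + s) * 16 + e)) fun c => decide (c < 600) &&
        qeq (mkPt (bv0 b) (bv1 b) s e) (pt c)) 16) 24) 7 = true := by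
    decide +kernel
  simpa only [force_eq] using h

/-- The first embedding. -/
noncomputable def phi1 (x : ℍ[ℝ]) : PiLp 2 (fun _ : Fin 8 => ℍ[ℝ]) :=
  WithLp.toLp 2 fun j => if j.val < 6 then x * hemb (qr j) else emb (pt 360)

lemma ix_lt {k : ℕ} (hk : k < 600) (j : ℕ) : ix k j < 600 := by
  unfold ix
  split_ifs with h
  · have := allLt_spec (allLt_spec chk_tr j h) k hk
    simp only [Bool.and_eq_true, decide_eq_true_eq] at this
    exact this.1
  · norm_num

lemma phi1_pt {k : ℕ} (hk : k < 600) (j : Fin 8) : phi1 (emb (pt k)) j = emb (pt (ix k j)) := by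
  unfold phi1 ix
  by_cases h : j.val < 6
  · have := allLt_spec (allLt_spec chk_tr j h) k hk
    simp only [Bool.and_eq_true, decide_eq_true_eq] at this
    simp only [h, if_true]
    exact rel_right this.2
  · simp only [h, if_false]

lemma orb1 {k l : ℕ} (hk : k < 600) (hl : l < 600) (h : k < 120 ↔ l < 120) :
    Orb (wr H1 SS) (phi1 (emb (pt k))) (phi1 (emb (pt l))) := by
  have a0 : ∀ k < 120, Orb (wr H1 SS) (phi1 (emb (pt 0))) (phi1 (emb (pt k))) := by
    intro k hk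
    have hk' : k < 600 := by omega
    have := allLt_spec chk_pat0 k hk
    simp only [decide_eq_true_eq] at this
    refine orb_wr 1 (one_mem _) fun j => ?_
    rw [phi1_pt (by norm_num), phi1_pt hk']
    exact orb_col (ix_lt (by norm_num) _) (ix_lt hk' _) (this j)
  have a1 : ∀ k < 600, ¬ k < 120 →
      Orb (wr H1 SS) (phi1 (emb (pt 120))) (phi1 (emb (pt k))) := by
    intro k hk hk'
    have := allLt_spec chk_pat1 k hk
    simp only [Bool.or_eq_true, decide_eq_true_eq] at this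
    refine orb_wr (hf (tb TH k)) (hf_mem _) fun j => ?_
    rw [phi1_pt (by norm_num), phi1_pt hk]
    exact orb_col (ix_lt (by norm_num) _) (ix_lt hk _) (this.resolve_left hk' j)
  by_cases hk' : k < 120
  · exact (a0 k hk').symm.trans (a0 l (h.mp hk'))
  · exact (a1 k hk hk').symm.trans (a1 l hl (fun h' => hk' (h.mpr h')))

/-- The second embedding. -/
noncomputable def phi2 (x : ℍ[ℝ]) : PiLp 2 (fun _ : Fin 5 => PiLp 2 (fun _ : Fin 8 => ℍ[ℝ])) :=
  WithLp.toLp 2 fun i => phi1 (hemb qp ^ i.val * x)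

lemma tp_iter (i : ℕ) {k : ℕ} (hk : k < 600) :
    (tb TP)^[i] k < 600 ∧ hemb qp ^ i * emb (pt k) = emb (pt ((tb TP)^[i] k)) := by
  induction i with
  | zero => exact ⟨hk, by simp⟩
  | succ i ih =>
    have := allLt_spec chk_tp _ ih.1
    simp only [Bool.and_eq_true, decide_eq_true_eq] at this
    rw [Function.iterate_succ_apply']
    refine ⟨this.1, ?_⟩
    rw [pow_succ', mul_assoc, ih.2, rel_left this.2]

lemma orb2 {k : ℕ} (hk : k < 600) :
    Orb (wr H2 (wr H1 SS)) (phi2 (emb (pt 0))) (phi2 (emb (pt k))) := by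
  have := allLt_spec chk_pat2 k hk
  simp only [decide_eq_true_eq] at this
  refine orb_wr (finRotate 5 ^ tb TS k) (pow_mem (subset_closure (by simp)) _) fun i => ?_
  change Orb _ (phi1 (hemb qp ^ _ * _)) (phi1 (hemb qp ^ _ * _))
  rw [(tp_iter _ (by norm_num)).2, (tp_iter _ hk).2]
  exact orb1 (tp_iter _ (by norm_num)).1 (tp_iter _ hk).1 (this i)

lemma norm_hemb {g : Q8} (h : good g = true) : ‖hemb g‖ = 1 := by
  rw [← coe_uu h]; exact norm_unit _

lemma good_qr : ∀ j < 6, good (qr j) = true := by decide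

lemma dist_phi1 (x y : ℍ[ℝ]) : dist (phi1 x) (phi1 y) ^ 2 = 6 * dist x y ^ 2 := by
  rw [PiLp.dist_sq_eq_of_L2]
  have : ∀ j < 6, dist (x * hemb (qr j)) (y * hemb (qr j)) = dist x y := by
    intro j hj
    rw [dist_eq_norm, dist_eq_norm, ← sub_mul, norm_mul, norm_hemb (good_qr j hj), mul_one]
  simp [phi1, Fin.sum_univ_eight, this]
  ring

lemma dist_phi2 (x y : ℍ[ℝ]) : dist (phi2 x) (phi2 y) = √30 * dist x y := by
  have h : dist (phi2 x) (phi2 y) ^ 2 = 30 * dist x y ^ 2 := by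
    rw [PiLp.dist_sq_eq_of_L2]
    have : ∀ i : ℕ, dist (hemb qp ^ i * x) (hemb qp ^ i * y) = dist x y := by
      intro i
      rw [dist_eq_norm, dist_eq_norm, ← mul_sub, norm_mul, norm_pow, norm_hemb (by decide),
        one_pow, one_mul]
    simp only [phi2, dist_phi1, this]
    simp
    ring
  rw [← Real.sqrt_sq (dist_nonneg (x := phi2 x) (y := phi2 y)), h,
    Real.sqrt_mul (by norm_num), Real.sqrt_sq dist_nonneg]

lemma mem_pts_of {b s e : ℕ} (hb : b < 7) (hs : s < 24) (hbs : 4 ≤ b → s < 12) (he : e < 16) :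
    ∃ k < 600, mkPt (bv0 b) (bv1 b) s e = pt k := by
  have := allLt_spec (allLt_spec chk_idx b hb) s hs
  simp only [Bool.or_eq_true, Bool.and_eq_true, decide_eq_true_eq] at this
  rcases this with h | h
  · have := hbs h.1; omega
  · have := allLt_spec h e he
    simp only [Bool.and_eq_true, decide_eq_true_eq] at this
    exact ⟨_, this.1, qeq_eq this.2⟩

lemma all_pts {b : ℕ} (hb : b < 4) {v : Fin 4 → ℝ}
    (hv : ∀ i : Fin 4, v i = bv0 b i + bv1 b i * goldenRatio) {x : EuclideanSpace ℝ (Fin 4)}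
    (hx : x ∈ allPerms v) : ∃ k < 600, x = linearIsometryEquivTuple (emb (pt k)) := by
  obtain ⟨σ, hσ⟩ := hx
  obtain ⟨s, hs, hs'⟩ := ps_all σ
  obtain ⟨e, he, rfl⟩ := exists_mkPt hv hσ hs'
  obtain ⟨k, hk, hk'⟩ := mem_pts_of (b := b) (by omega) hs (by omega) he
  exact ⟨k, hk, by rw [hk']⟩

lemma even_pts {b : ℕ} (hb : b < 7) {v : Fin 4 → ℝ}
    (hv : ∀ i : Fin 4, v i = bv0 b i + bv1 b i * goldenRatio) {x : EuclideanSpace ℝ (Fin 4)}
    (hx : x ∈ evenPerms v) : ∃ k < 600, x = linearIsometryEquivTuple (emb (pt k)) := by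
  obtain ⟨σ, hσ1, hσ⟩ := hx
  obtain ⟨s, hs, hs'⟩ := ps_even σ hσ1
  obtain ⟨e, he, rfl⟩ := exists_mkPt hv hσ hs'
  obtain ⟨k, hk, hk'⟩ := mem_pts_of (b := b) hb (by omega) (fun _ => hs) he
  exact ⟨k, hk, by rw [hk']⟩

lemma cell120_pts {x : EuclideanSpace ℝ (Fin 4)} (hx : x ∈ cell120) :
    ∃ k < 600, x = linearIsometryEquivTuple (emb (pt k)) := by
  have g1 := gold_inv
  have g2 := gold_inv_sq
  have g3 := sqrt5
  have g4 := goldenRatio_sq
  unfold cell120 at hx
  generalize hg : goldenRatio = g at g1 g2 g3 g4 hx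
  rw [g2, g1, g3, g4] at hx
  subst hg
  rcases hx with ((((((hx | hx) | hx) | hx) | hx) | hx) | hx)
  · exact all_pts (b := 0) (by norm_num) (fun i => by fin_cases i <;> simp [bv0, bv1]) hx
  · exact all_pts (b := 1) (by norm_num) (fun i => by fin_cases i <;> simp [bv0, bv1] <;> ring) hx
  · exact all_pts (b := 2) (by norm_num) (fun i => by fin_cases i <;> simp [bv0, bv1] <;> ring) hx
  · exact all_pts (b := 3) (by norm_num) (fun i => by fin_cases i <;> simp [bv0, bv1] <;> ring) hx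
  · exact even_pts (b := 4) (by norm_num) (fun i => by fin_cases i <;> simp [bv0, bv1] <;> ring) hx
  · exact even_pts (b := 5) (by norm_num) (fun i => by fin_cases i <;> simp [bv0, bv1] <;> ring) hx
  · exact even_pts (b := 6) (by norm_num) (fun i => by fin_cases i <;> simp [bv0, bv1] <;> ring) hx

theorem cell120_subsoluble (r : ℝ) (hr : 0 < r) : IsSubsoluble ((fun x => r • x) '' cell120) := by
  refine subsoluble_of (fs_H2.wr (fs_H1.wr fs_SS))
    (fun z => phi2 (linearIsometryEquivTuple.symm z)) √30 (by positivity) ?_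
    (phi2 (emb (pt 0))) _ ?_ r hr
  · intro x y
    rw [dist_phi2, LinearIsometryEquiv.dist_map]
  · intro x hx
    obtain ⟨k, hk, rfl⟩ := cell120_pts hx
    rw [LinearIsometryEquiv.symm_apply_apply]
    exact orb2 hk

end Pool.Agent.Work.MP_c35292_co
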