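import Pool.Agent.Work.MP_c35292_co.Data600

/-!
The 600-cell is an orbit of the product of the binary tetrahedral group, acting on the left, and
a cyclic group of order five, acting on the right.
-/

namespace Pool.Agent.Work.MP_c35292_co.C600

open Quaternion Real Subgroup

/-- Vertex number `k`. -/
def pt (k : ℕ) : Q8 := ptOf PTS k

/-- Test that `y` is obtained from `x` by move number `m`. -/
def mv (m : ℕ) (x y : Q8) : Bool :=
  if m = 0 then rel qi x y else if m = 1 then rel qj x y else if m = 2 then rel qw x y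
  else rel x qp y

/-- The cyclic group of order five. -/
noncomputable def CC : Subgroup (unitary ℍ[ℝ]) := closure (insert (uu qp) ∅)

lemma p5 : uu qp ^ (4 + 1) = 1 := by
  have h2 : uu qp * uu qp = uu ⟨0, -1, 0, 0, 1, 0, -1, 1⟩ := uu_mul (by decide)
  have h4 : uu ⟨0, -1, 0, 0, 1, 0, -1, 1⟩ * uu ⟨0, -1, 0, 0, 1, 0, -1, 1⟩ =
    uu ⟨-1, 1, 0, 0, 0, -1, -1, 0⟩ := uu_mul (by decide)
  have h5 : uu ⟨-1, 1, 0, 0, 0, -1, -1, 0⟩ * uu qp = uu qone := uu_mul (by decide)
  rw [show uu qp ^ (4 + 1) = (uu qp * uu qp) * (uu qp * uu qp) * uu qp by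
    simp only [pow_succ, pow_zero, one_mul, mul_assoc], h2, h4, h5, uu_qone]

lemma fs_CC : FS CC := FS.empty.adj _ (by simp) 4 p5

/-- The soluble group acting on the quaternions. -/
noncomputable def SS : Subgroup (ℍ[ℝ] ≃ₗᵢ[ℝ] ℍ[ℝ]) := (TT.prod CC).map lr

lemma fs_SS : FS SS := (fs_TT.prod fs_CC).map lr

lemma orb_mv {m : ℕ} {x y : Q8} (h : mv m x y = true) : Orb SS (emb x) (emb y) := by
  unfold mv at h
  split_ifs at h
  · exact orb_left (by decide) qi_mem h
  · exact orb_left (by decide) qj_mem h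
  · exact orb_left (by decide) qw_mem h
  · exact orb_right (by decide) (subset_closure (by simp)) h

lemma chk_tree : allLt (fun k => decide (k = 0) ||
    (decide (tb PAR k < k) && mv (tb MOV k) (pt (tb PAR k)) (pt k))) 120 = true := by
  decide +kernel

lemma orb_rep : ∀ k < 120, Orb SS (emb (pt 0)) (emb (pt k)) := by
  intro k
  induction k using Nat.strong_induction_on with
  | _ k ih =>
    intro hk
    have := allLt_spec chk_tree k hk
    simp only [Bool.or_eq_true, Bool.and_eq_true, decide_eq_true_eq] at this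
    rcases this with h | ⟨h1, h3⟩
    · rw [h]; exact Orb.refl _ _
    · exact (ih _ h1 (h1.trans hk)).trans (orb_mv h3)

lemma chk_tm : allLt (fun m => allLt (fun k => decide (tb TM (120 * m + k) < 120) &&
    mv m (pt k) (pt (tb TM (120 * m + k)))) 120) 4 = true := by
  decide +kernel

lemma chk_idx : allLt (fun b => allLt (fun s => (decide (2 ≤ b) && decide (12 ≤ s)) ||
    allLt (fun e => decide (tb IDX ((24 * b + s) * 16 + e) < 120) &&
      qeq (mkPt (bv0 b) (bv1 b) s e) (pt (tb IDX ((24 * b + s) * 16 + e)))) 16) 24) 3 = true := by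
  decide +kernel

lemma chk_rev : allLt (fun k => decide (tb RB k < 3) && decide (tb RS k < 24) &&
    decide (tb RB k = 2 → tb RS k < 12) &&
    qeq (mkPt (bv0 (tb RB k)) (bv1 (tb RB k)) (tb RS k) (tb RE k)) (pt k)) 120 = true := by
  decide +kernel

/-- The vertex set as a set of quaternions. -/
def LL : Set ℍ[ℝ] := (fun k => emb (pt k)) '' Set.Iio 120

lemma LL_finite : LL.Finite := (Set.finite_Iio _).image _

/-- The isometries mapping the vertex set onto itself. -/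
def Stab : Subgroup (ℍ[ℝ] ≃ₗᵢ[ℝ] ℍ[ℝ]) where
  carrier := {g | Set.BijOn g LL LL}
  mul_mem' := fun {a b} ha hb => Set.BijOn.comp (g := a) (f := b) ha hb
  one_mem' := Set.bijOn_id LL
  inv_mem' := fun {a} ha => a.toEquiv.bijOn_symm.mpr ha

lemma mem_Stab {g : ℍ[ℝ] ≃ₗᵢ[ℝ] ℍ[ℝ]} (h : ∀ k < 120, ∃ l < 120, g (emb (pt k)) = emb (pt l)) :
    g ∈ Stab := by
  refine (LL_finite.injOn_iff_bijOn_of_mapsTo ?_).mp g.injective.injOn
  rintro _ ⟨k, hk, rfl⟩
  obtain ⟨l, hl, h'⟩ := h k hk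
  exact ⟨l, hl, h'.symm⟩

lemma tm_spec {m k : ℕ} (hm : m < 4) (hk : k < 120) :
    ∃ l < 120, mv m (pt k) (pt l) = true := by
  have := allLt_spec (allLt_spec chk_tm m hm) k hk
  simp only [Bool.and_eq_true, decide_eq_true_eq] at this
  exact ⟨_, this.1, this.2⟩

lemma left_Stab {g : Q8} (hg : good g = true)
    (h : ∀ k < 120, ∃ l < 120, rel g (pt k) (pt l) = true) : lr (uu g, 1) ∈ Stab := by
  refine mem_Stab fun k hk => ?_
  obtain ⟨l, hl, h'⟩ := h k hk
  refine ⟨l, hl, ?_⟩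
  change lrEquiv (uu g) 1 _ = _
  rw [lrEquiv_apply, coe_uu hg, rel_left h']; simp

lemma SS_le : SS ≤ Stab := by
  have h1 : TT ≤ Stab.comap (lr.comp (MonoidHom.inl _ _)) := by
    rw [TT, closure_le]
    rintro x (rfl | rfl | rfl | hx)
    · exact left_Stab (by decide) fun k hk => tm_spec (m := 2) (by norm_num) hk
    · exact left_Stab (by decide) fun k hk => tm_spec (m := 1) (by norm_num) hk
    · exact left_Stab (by decide) fun k hk => tm_spec (m := 0) (by norm_num) hk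
    · exact hx.elim
  have h2 : CC ≤ Stab.comap (lr.comp (MonoidHom.inr _ _)) := by
    rw [CC, closure_le]
    rintro x (rfl | hx)
    · refine (Subgroup.inv_mem_iff _).mp (mem_Stab fun k hk => ?_)
      obtain ⟨l, hl, h'⟩ := tm_spec (m := 3) (by norm_num) hk
      refine ⟨l, hl, ?_⟩
      change lrEquiv 1 (uu qp)⁻¹ _ = _
      rw [lrEquiv_apply, inv_inv, coe_uu (by decide), ← rel_right h']; simp
    · exact hx.elim
  rintro _ ⟨⟨a, b⟩, ⟨ha, hb⟩, rfl⟩
  have : (a, b) = MonoidHom.inl _ _ a * MonoidHom.inr _ _ b := by simp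
  rw [this, map_mul]
  exact mul_mem (h1 ha) (h2 hb)

lemma hv0 (i : Fin 4) : (![2, 0, 0, 0] : Fin 4 → ℝ) i = bv0 0 i + bv1 0 i * goldenRatio := by
  fin_cases i <;> simp [bv0, bv1]

lemma hv1 (i : Fin 4) : (![1, 1, 1, 1] : Fin 4 → ℝ) i = bv0 1 i + bv1 1 i * goldenRatio := by
  fin_cases i <;> simp [bv0, bv1]

lemma hv2 (i : Fin 4) : (![goldenRatio, 1, goldenRatio⁻¹, 0] : Fin 4 → ℝ) i =
    bv0 2 i + bv1 2 i * goldenRatio := by
  rw [gold_inv]
  fin_cases i <;> simp [bv0, bv1]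
  ring

lemma mem_pts_of {b s e : ℕ} (hb : b < 3) (hs : s < 24) (hbs : 2 ≤ b → s < 12) (he : e < 16) :
    ∃ k < 120, mkPt (bv0 b) (bv1 b) s e = pt k := by
  have := allLt_spec (allLt_spec chk_idx b hb) s hs
  simp only [Bool.or_eq_true, Bool.and_eq_true, decide_eq_true_eq] at this
  rcases this with h | h
  · have := hbs h.1; omega
  · have := allLt_spec h e he
    simp only [Bool.and_eq_true, decide_eq_true_eq] at this
    exact ⟨_, this.1, qeq_eq this.2⟩

lemma cell600_eq : cell600 = linearIsometryEquivTuple '' LL := by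
  ext x
  constructor
  · rintro ((⟨σ, hσ⟩ | ⟨σ, hσ⟩) | ⟨σ, hσ1, hσ⟩)
    · obtain ⟨s, hs, hs'⟩ := ps_all σ
      obtain ⟨e, he, rfl⟩ := exists_mkPt hv0 hσ hs'
      obtain ⟨k, hk, hk'⟩ := mem_pts_of (b := 0) (by omega) hs (by omega) he
      exact ⟨_, ⟨k, hk, rfl⟩, by rw [hk']⟩
    · obtain ⟨s, hs, hs'⟩ := ps_all σ
      obtain ⟨e, he, rfl⟩ := exists_mkPt hv1 hσ hs'
      obtain ⟨k, hk, hk'⟩ := mem_pts_of (b := 1) (by omega) hs (by omega) he
      exact ⟨_, ⟨k, hk, rfl⟩, by rw [hk']⟩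
    · obtain ⟨s, hs, hs'⟩ := ps_even σ hσ1
      obtain ⟨e, he, rfl⟩ := exists_mkPt hv2 hσ hs'
      obtain ⟨k, hk, hk'⟩ := mem_pts_of (b := 2) (by omega) (by omega) (fun _ => hs) he
      exact ⟨_, ⟨k, hk, rfl⟩, by rw [hk']⟩
  · rintro ⟨_, ⟨k, hk, rfl⟩, rfl⟩
    have := allLt_spec chk_rev k hk
    simp only [Bool.and_eq_true, decide_eq_true_eq] at this
    obtain ⟨⟨⟨h1, h2⟩, h3⟩, h4⟩ := this
    have h5 := qeq_eq h4
    simp only
    rw [← h5]
    generalize tb RB k = b at h1 h3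
    interval_cases b
    · obtain ⟨σ, hσ⟩ := ps_all' _ h2
      exact Or.inl (Or.inl ⟨σ, mkPt_signed hv0 hσ _⟩)
    · obtain ⟨σ, hσ⟩ := ps_all' _ h2
      exact Or.inl (Or.inr ⟨σ, mkPt_signed hv1 hσ _⟩)
    · obtain ⟨σ, hσ1, hσ⟩ := ps_even' _ (h3 rfl)
      exact Or.inr ⟨σ, hσ1, mkPt_signed hv2 hσ _⟩

theorem cell600_soluble (r : ℝ) : IsSolubleSet ((fun x => r • x) '' cell600) := by
  have h := soluble_orbit linearIsometryEquivTuple fs_SS (r • emb (pt 0))
  convert h using 1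
  rw [cell600_eq]
  ext x
  constructor
  · rintro ⟨_, ⟨_, ⟨k, hk, rfl⟩, rfl⟩, rfl⟩
    exact ⟨r • emb (pt k), (orb_rep k hk).smul r, by simp only [map_smul]⟩
  · rintro ⟨_, ⟨g, hg, rfl⟩, rfl⟩
    have : g (emb (pt 0)) ∈ LL := (SS_le hg).mapsTo ⟨0, by norm_num, rfl⟩
    exact ⟨_, ⟨_, this, rfl⟩, by simp only [map_smul]⟩

end Pool.Agent.Work.MP_c35292_co.C600
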