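import Pool.Agent.Work.MP_c35292_co.Wreath
import Mathlib.Analysis.Quaternion

/-!
Quaternions with coordinates in `ℤ[φ]`, and the action of pairs of unit quaternions.
-/

namespace Pool.Agent.Work.MP_c35292_co

open Quaternion Real Subgroup

/-- A quaternion with coordinates `a0 + a1 φ`, and so on. -/
structure Q8 where
  a0 : ℤ
  a1 : ℤ
  b0 : ℤ
  b1 : ℤ
  c0 : ℤ
  c1 : ℤ
  d0 : ℤ
  d1 : ℤ

/-- Rational part of a product in `ℤ[φ]`. -/
def m0 (x0 x1 y0 y1 : ℤ) : ℤ := x0 * y0 + x1 * y1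

/-- `φ`-part of a product in `ℤ[φ]`. -/
def m1 (x0 x1 y0 y1 : ℤ) : ℤ := x0 * y1 + x1 * y0 + x1 * y1

/-- Quaternion product. -/
def qmul (x y : Q8) : Q8 where
  a0 := m0 x.a0 x.a1 y.a0 y.a1 - m0 x.b0 x.b1 y.b0 y.b1 - m0 x.c0 x.c1 y.c0 y.c1
    - m0 x.d0 x.d1 y.d0 y.d1
  a1 := m1 x.a0 x.a1 y.a0 y.a1 - m1 x.b0 x.b1 y.b0 y.b1 - m1 x.c0 x.c1 y.c0 y.c1
    - m1 x.d0 x.d1 y.d0 y.d1
  b0 := m0 x.a0 x.a1 y.b0 y.b1 + m0 x.b0 x.b1 y.a0 y.a1 + m0 x.c0 x.c1 y.d0 y.d1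
    - m0 x.d0 x.d1 y.c0 y.c1
  b1 := m1 x.a0 x.a1 y.b0 y.b1 + m1 x.b0 x.b1 y.a0 y.a1 + m1 x.c0 x.c1 y.d0 y.d1
    - m1 x.d0 x.d1 y.c0 y.c1
  c0 := m0 x.a0 x.a1 y.c0 y.c1 - m0 x.b0 x.b1 y.d0 y.d1 + m0 x.c0 x.c1 y.a0 y.a1
    + m0 x.d0 x.d1 y.b0 y.b1
  c1 := m1 x.a0 x.a1 y.c0 y.c1 - m1 x.b0 x.b1 y.d0 y.d1 + m1 x.c0 x.c1 y.a0 y.a1
    + m1 x.d0 x.d1 y.b0 y.b1
  d0 := m0 x.a0 x.a1 y.d0 y.d1 + m0 x.b0 x.b1 y.c0 y.c1 - m0 x.c0 x.c1 y.b0 y.b1
    + m0 x.d0 x.d1 y.a0 y.a1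
  d1 := m1 x.a0 x.a1 y.d0 y.d1 + m1 x.b0 x.b1 y.c0 y.c1 - m1 x.c0 x.c1 y.b0 y.b1
    + m1 x.d0 x.d1 y.a0 y.a1

/-- Conjugate. -/
def cj (x : Q8) : Q8 := ⟨x.a0, x.a1, -x.b0, -x.b1, -x.c0, -x.c1, -x.d0, -x.d1⟩

/-- Equality test. -/
def qeq (x y : Q8) : Bool :=
  decide (x.a0 = y.a0) && decide (x.a1 = y.a1) && decide (x.b0 = y.b0) && decide (x.b1 = y.b1) &&
  decide (x.c0 = y.c0) && decide (x.c1 = y.c1) && decide (x.d0 = y.d0) && decide (x.d1 = y.d1)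

lemma qeq_eq {x y : Q8} (h : qeq x y = true) : x = y := by
  cases x; cases y
  simp only [qeq, Bool.and_eq_true, decide_eq_true_eq] at h
  simp only [Q8.mk.injEq]
  tauto

/-- Doubling. -/
def dbl (x : Q8) : Q8 :=
  ⟨2 * x.a0, 2 * x.a1, 2 * x.b0, 2 * x.b1, 2 * x.c0, 2 * x.c1, 2 * x.d0, 2 * x.d1⟩

/-- The real quaternion represented. -/
noncomputable def emb (x : Q8) : ℍ[ℝ] :=
  ⟨x.a0 + x.a1 * goldenRatio, x.b0 + x.b1 * goldenRatio, x.c0 + x.c1 * goldenRatio,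
    x.d0 + x.d1 * goldenRatio⟩

lemma m01 (x0 x1 y0 y1 : ℤ) : ((m0 x0 x1 y0 y1 : ℤ) : ℝ) + (m1 x0 x1 y0 y1 : ℤ) * goldenRatio =
    (x0 + x1 * goldenRatio) * (y0 + y1 * goldenRatio) := by
  simp only [m0, m1]
  push_cast
  linear_combination (-(x1 : ℝ) * y1) * goldenRatio_sq

lemma emb_re (x : Q8) : (emb x).re = x.a0 + x.a1 * goldenRatio := rfl
lemma emb_imI (x : Q8) : (emb x).imI = x.b0 + x.b1 * goldenRatio := rfl
lemma emb_imJ (x : Q8) : (emb x).imJ = x.c0 + x.c1 * goldenRatio := rfl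
lemma emb_imK (x : Q8) : (emb x).imK = x.d0 + x.d1 * goldenRatio := rfl

lemma emb_mul (x y : Q8) : emb (qmul x y) = emb x * emb y := by
  ext
  · simp only [Quaternion.re_mul, emb_re, emb_imI, emb_imJ, emb_imK, qmul, ← m01]
    push_cast; ring
  · simp only [Quaternion.imI_mul, emb_re, emb_imI, emb_imJ, emb_imK, qmul, ← m01]
    push_cast; ring
  · simp only [Quaternion.imJ_mul, emb_re, emb_imI, emb_imJ, emb_imK, qmul, ← m01]
    push_cast; ring
  · simp only [Quaternion.imK_mul, emb_re, emb_imI, emb_imJ, emb_imK, qmul, ← m01]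
    push_cast; ring

lemma emb_cj (x : Q8) : emb (cj x) = star (emb x) := by
  ext <;> simp [emb_re, emb_imI, emb_imJ, emb_imK, cj] <;> ring

lemma emb_dbl (x : Q8) : emb (dbl x) = (2 : ℝ) • emb x := by
  ext <;> simp [emb_re, emb_imI, emb_imJ, emb_imK, dbl] <;> ring

/-- Half of the represented quaternion. -/
noncomputable def hemb (g : Q8) : ℍ[ℝ] := (1 / 2 : ℝ) • emb g

/-- The representative of `1` after halving. -/
def qone : Q8 := ⟨2, 0, 0, 0, 0, 0, 0, 0⟩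

lemma hemb_qone : hemb qone = 1 := by
  ext <;> simp [hemb, emb_re, emb_imI, emb_imJ, emb_imK, qone]

/-- Test for `x * y = 2 z`. -/
def rel (x y z : Q8) : Bool := qeq (qmul x y) (dbl z)

lemma rel_left {g x y : Q8} (h : rel g x y = true) : hemb g * emb x = emb y := by
  have := congrArg emb (qeq_eq h)
  rw [emb_mul, emb_dbl] at this
  rw [hemb, smul_mul_assoc, this, smul_smul]; norm_num

lemma rel_right {g x y : Q8} (h : rel x g y = true) : emb x * hemb g = emb y := by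
  have := congrArg emb (qeq_eq h)
  rw [emb_mul, emb_dbl] at this
  rw [hemb, mul_smul_comm, this, smul_smul]; norm_num

lemma rel_hemb {x y z : Q8} (h : rel x y z = true) : hemb x * hemb y = hemb z := by
  rw [hemb.eq_1 y, mul_smul_comm, rel_left h, hemb]

/-- Test for half of `g` being a unit quaternion. -/
def good (g : Q8) : Bool := rel g (cj g) qone && rel (cj g) g qone

lemma hemb_cj (g : Q8) : hemb (cj g) = star (hemb g) := by
  rw [hemb, hemb, emb_cj]; simp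

lemma good_mem {g : Q8} (h : good g = true) : hemb g ∈ unitary ℍ[ℝ] := by
  simp only [good, Bool.and_eq_true] at h
  have h1 := rel_hemb h.1
  have h2 := rel_hemb h.2
  rw [hemb_cj, hemb_qone] at h1 h2
  exact ⟨h2, h1⟩

/-- The unit quaternion represented by `g`. -/
noncomputable def uu (g : Q8) : unitary ℍ[ℝ] :=
  if h : good g = true then ⟨hemb g, good_mem h⟩ else 1

lemma coe_uu {g : Q8} (h : good g = true) : (uu g : ℍ[ℝ]) = hemb g := by
  simp [uu, h]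

/-- Test for a product relation between unit quaternions. -/
def chk (x y z : Q8) : Bool := good x && good y && good z && rel x y z

lemma uu_mul {x y z : Q8} (h : chk x y z = true) : uu x * uu y = uu z := by
  simp only [chk, Bool.and_eq_true] at h
  apply Subtype.ext
  rw [Submonoid.coe_mul, coe_uu h.1.1.1, coe_uu h.1.1.2, coe_uu h.1.2, rel_hemb h.2]

lemma uu_qone : uu qone = 1 := by
  apply Subtype.ext
  rw [coe_uu (by decide), hemb_qone]; rfl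

lemma norm_unit (a : unitary ℍ[ℝ]) : ‖(a : ℍ[ℝ])‖ = 1 := CStarRing.norm_coe_unitary a

/-- The isometry `x ↦ a x b⁻¹`. -/
noncomputable def lrEquiv (a b : unitary ℍ[ℝ]) : ℍ[ℝ] ≃ₗᵢ[ℝ] ℍ[ℝ] where
  toFun x := (a : ℍ[ℝ]) * x * ((b⁻¹ : unitary ℍ[ℝ]) : ℍ[ℝ])
  invFun x := ((a⁻¹ : unitary ℍ[ℝ]) : ℍ[ℝ]) * x * (b : ℍ[ℝ])
  map_add' x y := by simp [mul_add, add_mul]
  map_smul' c x := by simp
  left_inv x := by
    simp only [← mul_assoc, ← Submonoid.coe_mul, inv_mul_cancel]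
    rw [mul_assoc, ← Submonoid.coe_mul, inv_mul_cancel]; simp
  right_inv x := by
    simp only [← mul_assoc, ← Submonoid.coe_mul, mul_inv_cancel]
    rw [mul_assoc, ← Submonoid.coe_mul, mul_inv_cancel]; simp
  norm_map' x := by
    change ‖(a : ℍ[ℝ]) * x * ((b⁻¹ : unitary ℍ[ℝ]) : ℍ[ℝ])‖ = ‖x‖
    rw [norm_mul, norm_mul, norm_unit, norm_unit]; simp

lemma lrEquiv_apply (a b : unitary ℍ[ℝ]) (x : ℍ[ℝ]) :
    lrEquiv a b x = (a : ℍ[ℝ]) * x * ((b⁻¹ : unitary ℍ[ℝ]) : ℍ[ℝ]) := rfl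

/-- The action of pairs of unit quaternions by left and right multiplication. -/
noncomputable def lr : unitary ℍ[ℝ] × unitary ℍ[ℝ] →* (ℍ[ℝ] ≃ₗᵢ[ℝ] ℍ[ℝ]) where
  toFun q := lrEquiv q.1 q.2
  map_one' := by
    apply LinearIsometryEquiv.ext; intro x
    rw [lrEquiv_apply]; simp
  map_mul' q q' := by
    apply LinearIsometryEquiv.ext; intro x
    rw [lie_mul_apply, lrEquiv_apply, lrEquiv_apply, lrEquiv_apply]
    simp only [Prod.fst_mul, Prod.snd_mul, mul_inv_rev, Submonoid.coe_mul, mul_assoc]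

lemma orb_left {A B : Subgroup (unitary ℍ[ℝ])} {g x y : Q8} (hg : good g = true) (hA : uu g ∈ A)
    (h : rel g x y = true) : Orb ((A.prod B).map lr) (emb x) (emb y) := by
  refine ⟨_, ⟨(uu g, 1), ⟨hA, one_mem _⟩, rfl⟩, ?_⟩
  change lrEquiv (uu g) 1 (emb x) = _
  rw [lrEquiv_apply, coe_uu hg, rel_left h]; simp

lemma orb_right {A B : Subgroup (unitary ℍ[ℝ])} {g x y : Q8} (hg : good g = true) (hB : uu g ∈ B)
    (h : rel x g y = true) : Orb ((A.prod B).map lr) (emb x) (emb y) := by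
  refine ⟨_, ⟨(1, (uu g)⁻¹), ⟨one_mem _, B.inv_mem hB⟩, rfl⟩, ?_⟩
  change lrEquiv 1 (uu g)⁻¹ (emb x) = _
  rw [lrEquiv_apply, inv_inv, coe_uu hg, ← rel_right h]; simp

/-- `i`. -/
def qi : Q8 := ⟨0, 0, 2, 0, 0, 0, 0, 0⟩
/-- `j`. -/
def qj : Q8 := ⟨0, 0, 0, 0, 2, 0, 0, 0⟩
/-- `k`. -/
def qk : Q8 := ⟨0, 0, 0, 0, 0, 0, 2, 0⟩
/-- `-1`. -/
def qm : Q8 := ⟨-2, 0, 0, 0, 0, 0, 0, 0⟩
/-- `(1 + i + j + k) / 2`. -/
def qw : Q8 := ⟨1, 0, 1, 0, 1, 0, 1, 0⟩

lemma ii : uu qi * uu qi = uu qm := uu_mul (by decide)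
lemma jj : uu qj * uu qj = uu qm := uu_mul (by decide)
lemma mm : uu qm * uu qm = 1 := by rw [← uu_qone]; exact uu_mul (by decide)
lemma i4 : uu qi ^ (3 + 1) = 1 := by
  rw [show uu qi ^ (3 + 1) = (uu qi * uu qi) * (uu qi * uu qi) by
    simp only [pow_succ, pow_zero, one_mul, mul_assoc], ii, mm]
lemma j4 : uu qj ^ (3 + 1) = 1 := by
  rw [show uu qj ^ (3 + 1) = (uu qj * uu qj) * (uu qj * uu qj) by
    simp only [pow_succ, pow_zero, one_mul, mul_assoc], jj, mm]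
lemma w6 : uu qw ^ (5 + 1) = 1 := by
  have h2 : uu qw * uu qw = uu ⟨-1, 0, 1, 0, 1, 0, 1, 0⟩ := uu_mul (by decide)
  have h3 : uu ⟨-1, 0, 1, 0, 1, 0, 1, 0⟩ * uu qw = uu qm := uu_mul (by decide)
  rw [show uu qw ^ (5 + 1) = (uu qw * uu qw * uu qw) * (uu qw * uu qw * uu qw) by
    simp only [pow_succ, pow_zero, one_mul, mul_assoc], h2, h3, mm]

/-- The binary tetrahedral group. -/
noncomputable def TT : Subgroup (unitary ℍ[ℝ]) :=
  closure (insert (uu qw) (insert (uu qj) (insert (uu qi) ∅)))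

lemma fs_TT : FS TT := by
  have h1 : FS (closure (insert (uu qi) (∅ : Set (unitary ℍ[ℝ])))) :=
    FS.empty.adj _ (by simp) 3 i4
  have h2 : FS (closure (insert (uu qj) (insert (uu qi) (∅ : Set (unitary ℍ[ℝ]))))) := by
    refine h1.adj _ ?_ 3 j4
    rintro x (rfl | hx)
    · have e1 : uu qj * uu qi = uu (cj qk) := uu_mul (by decide)
      have e2 : uu qi * uu (cj qk) = uu qj := uu_mul (by decide)
      have : uu qj * uu qi * (uu qj)⁻¹ = (uu qi)⁻¹ := by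
        rw [mul_inv_eq_iff_eq_mul, eq_inv_mul_iff_mul_eq, e1, e2]
      rw [this]
      exact inv_mem (subset_closure (by simp))
    · exact hx.elim
  refine h2.adj _ ?_ 5 w6
  rintro x (rfl | rfl | hx)
  · have e1 : uu qw * uu qj = uu ⟨-1, 0, -1, 0, 1, 0, 1, 0⟩ := uu_mul (by decide)
    have e2 : uu qk * uu qw = uu ⟨-1, 0, -1, 0, 1, 0, 1, 0⟩ := uu_mul (by decide)
    have e3 : uu qi * uu qj = uu qk := uu_mul (by decide)
    have : uu qw * uu qj * (uu qw)⁻¹ = uu qi * uu qj := by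
      rw [mul_inv_eq_iff_eq_mul, e1, e3, e2]
    rw [this]
    exact mul_mem (subset_closure (by simp)) (subset_closure (by simp))
  · have e1 : uu qw * uu qi = uu ⟨-1, 0, 1, 0, 1, 0, -1, 0⟩ := uu_mul (by decide)
    have e2 : uu qj * uu qw = uu ⟨-1, 0, 1, 0, 1, 0, -1, 0⟩ := uu_mul (by decide)
    have : uu qw * uu qi * (uu qw)⁻¹ = uu qj := by
      rw [mul_inv_eq_iff_eq_mul, e1, e2]
    rw [this]
    exact subset_closure (by simp)
  · exact hx.elim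

lemma qi_mem : uu qi ∈ TT := subset_closure (by simp)
lemma qj_mem : uu qj ∈ TT := subset_closure (by simp)
lemma qw_mem : uu qw ∈ TT := subset_closure (by simp)

/-- Bounded universal quantifier as a Boolean. -/
def allLt (f : ℕ → Bool) : ℕ → Bool
  | 0 => true
  | n + 1 => f n && allLt f n

lemma allLt_spec {f : ℕ → Bool} {n : ℕ} (h : allLt f n = true) : ∀ k < n, f k = true := by
  induction n with
  | zero => intro k hk; omega
  | succ n ih =>
    simp only [allLt, Bool.and_eq_true] at h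
    intro k hk
    rcases Nat.lt_succ_iff_lt_or_eq.mp hk with h' | rfl
    · exact ih h.2 k h'
    · exact h.1

/-- Entry `k` of a table of 10-bit entries. -/
def tb (N k : ℕ) : ℕ := (N >>> (10 * k)) % 1024

/-- A digit of a point code. -/
def dg (n i : ℕ) : ℤ := Int.subNatNat ((n >>> (3 * i)) % 8) 2

/-- Decode a 24-bit point code. -/
def dec (n : ℕ) : Q8 := ⟨dg n 0, dg n 1, dg n 2, dg n 3, dg n 4, dg n 5, dg n 6, dg n 7⟩

/-- Point number `k` of a table of points. -/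
def ptOf (N k : ℕ) : Q8 := dec ((N >>> (24 * k)) % 16777216)

/-- The permutations of four letters, the even ones first. -/
def ps (s i : ℕ) : ℕ := (1842785151127527150691775762544178054021441072321691154660 >>> (8 * s + 2 * i)) % 4

lemma ps_all : ∀ σ : Equiv.Perm (Fin 4), ∃ s < 24, ∀ i : Fin 4, (σ i).val = ps s i := by
  decide +kernel

lemma ps_even : ∀ σ : Equiv.Perm (Fin 4), Equiv.Perm.sign σ = 1 →
    ∃ s < 12, ∀ i : Fin 4, (σ i).val = ps s i := by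
  decide +kernel

lemma ps_all' : ∀ s < 24, ∃ σ : Equiv.Perm (Fin 4), ∀ i : Fin 4, (σ i).val = ps s i := by
  decide +kernel

lemma ps_even' : ∀ s < 12, ∃ σ : Equiv.Perm (Fin 4), Equiv.Perm.sign σ = 1 ∧
    ∀ i : Fin 4, (σ i).val = ps s i := by
  decide +kernel

lemma bits_all : ∀ ε : Fin 4 → Bool, ∃ e < 16, ∀ i : Fin 4, Nat.testBit e i = ε i := by
  decide +kernel

/-- Optional sign change. -/
def sg (b : Bool) (z : ℤ) : ℤ := bif b then -z else z

/-- The point obtained from the base vector `(v0, v1)` by permutation `s` and signs `e`. -/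
def mkPt (v0 v1 : ℕ → ℤ) (s e : ℕ) : Q8 :=
  ⟨sg (e.testBit 0) (v0 (ps s 0)), sg (e.testBit 0) (v1 (ps s 0)),
   sg (e.testBit 1) (v0 (ps s 1)), sg (e.testBit 1) (v1 (ps s 1)),
   sg (e.testBit 2) (v0 (ps s 2)), sg (e.testBit 2) (v1 (ps s 2)),
   sg (e.testBit 3) (v0 (ps s 3)), sg (e.testBit 3) (v1 (ps s 3))⟩

lemma tuple_mkPt (v0 v1 : ℕ → ℤ) (s e : ℕ) (i : Fin 4) :
    linearIsometryEquivTuple (emb (mkPt v0 v1 s e)) i =
      bif e.testBit i then -((v0 (ps s i) : ℝ) + v1 (ps s i) * goldenRatio)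
      else ((v0 (ps s i) : ℝ) + v1 (ps s i) * goldenRatio) := by
  have key : ∀ (b : Bool) (x y : ℤ), ((sg b x : ℤ) : ℝ) + (sg b y : ℤ) * goldenRatio =
      bif b then -((x : ℝ) + y * goldenRatio) else ((x : ℝ) + y * goldenRatio) := by
    intro b x y
    cases b
    · simp [sg]
    · simp [sg]; ring
  fin_cases i
  · exact key _ _ _
  · exact key _ _ _
  · exact key _ _ _
  · exact key _ _ _

lemma exists_mkPt {v : Fin 4 → ℝ} {v0 v1 : ℕ → ℤ}
    (hv : ∀ i : Fin 4, v i = v0 i + v1 i * goldenRatio) {x : EuclideanSpace ℝ (Fin 4)}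
    {σ : Equiv.Perm (Fin 4)} (hx : ∀ i, x i = v (σ i) ∨ x i = - v (σ i)) {s : ℕ}
    (hs : ∀ i : Fin 4, (σ i).val = ps s i) :
    ∃ e < 16, x = linearIsometryEquivTuple (emb (mkPt v0 v1 s e)) := by
  classical
  obtain ⟨e, he, hε⟩ := bits_all (fun i => !decide (x i = v (σ i)))
  refine ⟨e, he, ?_⟩
  ext i
  rw [tuple_mkPt, hε, ← hs, ← hv]
  by_cases h : x i = v (σ i)
  · rw [decide_eq_true h]; exact h
  · rw [decide_eq_false h]; exact (hx i).resolve_left h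

lemma mkPt_signed {v : Fin 4 → ℝ} {v0 v1 : ℕ → ℤ}
    (hv : ∀ i : Fin 4, v i = v0 i + v1 i * goldenRatio)
    {σ : Equiv.Perm (Fin 4)} {s : ℕ} (hs : ∀ i : Fin 4, (σ i).val = ps s i) (e : ℕ) (i : Fin 4) :
    linearIsometryEquivTuple (emb (mkPt v0 v1 s e)) i = v (σ i) ∨
      linearIsometryEquivTuple (emb (mkPt v0 v1 s e)) i = - v (σ i) := by
  rw [tuple_mkPt, ← hs, ← hv]
  cases e.testBit i
  · exact Or.inl rfl
  · exact Or.inr rfl

lemma gold_inv : goldenRatio⁻¹ = goldenRatio - 1 := by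
  rw [inv_goldenRatio]; linear_combination -goldenRatio_add_goldenConj

lemma gold_inv_sq : goldenRatio⁻¹ ^ 2 = 2 - goldenRatio := by
  rw [gold_inv]; linear_combination goldenRatio_sq

lemma sqrt5 : √5 = 2 * goldenRatio - 1 := by
  unfold goldenRatio; ring

end Pool.Agent.Work.MP_c35292_co
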