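import Pool.Agent.Work.MP_c35292_co.Defs
import Mathlib.Tactic

/-!
Finite soluble subgroups, wreath products acting on Euclidean products.
-/

namespace Pool.Agent.Work.MP_c35292_co

open Subgroup
open scoped commutatorElement

section Groups

variable {G : Type} [Group G]

/-- The derived series of the subgroup `K` reaches the trivial subgroup. -/
def Sol (K : Subgroup G) : Prop := ∃ n : ℕ, (fun A : Subgroup G => ⁅A, A⁆)^[n] K = ⊥

lemma comm_mono : Monotone (fun A : Subgroup G => ⁅A, A⁆) :=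
  fun _ _ h => Subgroup.commutator_mono h h

lemma Sol.bot : Sol (⊥ : Subgroup G) := ⟨0, rfl⟩

lemma Sol.step {K L : Subgroup G} (h : ⁅K, K⁆ ≤ L) (hL : Sol L) : Sol K := by
  obtain ⟨n, hn⟩ := hL
  refine ⟨n + 1, le_bot_iff.mp ?_⟩
  rw [Function.iterate_succ_apply, ← hn]
  exact (comm_mono.iterate n) h

lemma Sol.ind {P : Subgroup G → Prop} (h0 : P ⊥) (h1 : ∀ K, P ⁅K, K⁆ → P K) {K : Subgroup G}
    (h : Sol K) : P K := by
  obtain ⟨n, hn⟩ := h
  induction n generalizing K with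
  | zero => exact (show K = ⊥ from hn) ▸ h0
  | succ n ih => exact h1 K (ih hn)

lemma Sol.isSolvable {K : Subgroup G} (h : Sol K) : Group.IsSolvable K := by
  obtain ⟨n, hn⟩ := h
  have key : ∀ m, (derivedSeries K m).map K.subtype = (fun A : Subgroup G => ⁅A, A⁆)^[m] K := by
    intro m
    induction m with
    | zero => simp [← MonoidHom.range_eq_map]
    | succ m ih => rw [derivedSeries_succ, Subgroup.map_commutator, ih, Function.iterate_succ_apply']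
  refine ⟨⟨n, ?_⟩⟩
  have := key n
  rw [hn, Subgroup.map_eq_bot_iff_of_injective _ K.subtype_injective] at this
  exact this

lemma Sol.map {G' : Type} [Group G'] (f : G →* G') {K : Subgroup G} (h : Sol K) :
    Sol (K.map f) := by
  refine Sol.ind (P := fun K => Sol (K.map f)) ?_ ?_ h
  · simpa using Sol.bot
  · intro K hK
    exact Sol.step (by rw [Subgroup.map_commutator]) hK

lemma Sol.prod {G' : Type} [Group G'] {A : Subgroup G} {B : Subgroup G'} (hA : Sol A)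
    (hB : Sol B) : Sol (A.prod B) := by
  have h1 : Sol ((⊥ : Subgroup G).prod B) := by
    refine Sol.ind (P := fun B => Sol ((⊥ : Subgroup G).prod B)) ?_ ?_ hB
    · rw [Subgroup.bot_prod_bot]; exact Sol.bot
    · intro K hK
      refine Sol.step ?_ hK
      rw [Subgroup.commutator_prod_prod]
      exact Subgroup.prod_mono (by simp) le_rfl
  refine Sol.ind (P := fun A => Sol (A.prod B)) h1 ?_ hA
  intro K hK
  refine Sol.step ?_ hK
  rw [Subgroup.commutator_prod_prod]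
  refine Subgroup.prod_mono le_rfl (Subgroup.commutator_le.mpr ?_)
  intro x hx y hy
  rw [commutatorElement_def]
  exact mul_mem (mul_mem (mul_mem hx hy) (inv_mem hx)) (inv_mem hy)

/-- Finite and soluble. -/
def FS (K : Subgroup G) : Prop := (K : Set G).Finite ∧ Sol K

lemma FS.empty : FS (closure (∅ : Set G)) := by
  rw [Subgroup.closure_empty]
  exact ⟨by simp, Sol.bot⟩

lemma FS.map {G' : Type} [Group G'] (f : G →* G') {K : Subgroup G} (h : FS K) : FS (K.map f) :=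
  ⟨by rw [Subgroup.coe_map]; exact h.1.image _, h.2.map f⟩

lemma FS.prod {G' : Type} [Group G'] {A : Subgroup G} {B : Subgroup G'} (hA : FS A)
    (hB : FS B) : FS (A.prod B) :=
  ⟨by rw [Subgroup.coe_prod]; exact hA.1.prod hB.1, hA.2.prod hB.2⟩

lemma FS.adj {s : Set G} (hs : FS (closure s)) (g : G)
    (hg : ∀ x ∈ s, g * x * g⁻¹ ∈ closure s) (m : ℕ) (hm : g ^ (m + 1) = 1) :
    FS (closure (insert g s)) := by
  have c1 : ∀ x ∈ closure s, g * x * g⁻¹ ∈ closure s := by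
    intro x hx
    induction hx using Subgroup.closure_induction with
    | mem x hx => exact hg x hx
    | one => simp
    | mul x y _ _ hx hy =>
      have := (closure s).mul_mem hx hy
      simpa [mul_assoc] using this
    | inv x _ hx =>
      have := (closure s).inv_mem hx
      simpa [mul_assoc] using this
  have c2 : ∀ n : ℕ, ∀ x ∈ closure s, g ^ n * x * (g ^ n)⁻¹ ∈ closure s := by
    intro n
    induction n with
    | zero => intro x hx; simpa using hx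
    | succ n ih =>
      intro x hx
      have := c1 _ (ih x hx)
      rw [pow_succ']
      simpa [mul_assoc] using this
  have c3 : ∀ y ∈ closure (insert g s), ∃ k ∈ closure s, ∃ n : ℕ, y = k * g ^ n := by
    intro y hy
    induction hy using Subgroup.closure_induction with
    | mem x hx =>
      rcases hx with rfl | hx
      · exact ⟨1, one_mem _, 1, by simp⟩
      · exact ⟨x, subset_closure hx, 0, by simp⟩
    | one => exact ⟨1, one_mem _, 0, by simp⟩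
    | mul x y _ _ hx hy =>
      obtain ⟨k, hk, n, rfl⟩ := hx
      obtain ⟨l, hl, n', rfl⟩ := hy
      refine ⟨k * (g ^ n * l * (g ^ n)⁻¹), mul_mem hk (c2 n l hl), n + n', ?_⟩
      rw [pow_add]; group
    | inv x _ hx =>
      obtain ⟨k, hk, n, rfl⟩ := hx
      have e : (g ^ n)⁻¹ = g ^ (m * n) := by
        rw [inv_eq_iff_mul_eq_one, ← pow_add, show n + m * n = (m + 1) * n by ring, pow_mul, hm,
          one_pow]
      refine ⟨g ^ (m * n) * k⁻¹ * (g ^ (m * n))⁻¹, c2 _ _ (inv_mem hk), m * n, ?_⟩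
      rw [mul_inv_rev, e]; group
  refine ⟨?_, Sol.step ?_ hs.2⟩
  · have : (closure (insert g s) : Set G) ⊆
        (fun q : G × ℕ => q.1 * g ^ q.2) '' ((closure s : Set G) ×ˢ Set.Iio (m + 1)) := by
      intro y hy
      obtain ⟨k, hk, n, rfl⟩ := c3 y hy
      refine ⟨(k, n % (m + 1)), ⟨hk, Nat.mod_lt _ (Nat.succ_pos m)⟩, ?_⟩
      simp only
      rw [← pow_eq_pow_mod n hm]
    exact ((hs.1.prod (Set.finite_Iio _)).image _).subset this
  · rw [Subgroup.commutator_le]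
    intro x hx y hy
    obtain ⟨k, hk, n, rfl⟩ := c3 x hx
    obtain ⟨l, hl, n', rfl⟩ := c3 y hy
    have e : ⁅k * g ^ n, l * g ^ n'⁆ =
        k * (g ^ n * l * (g ^ n)⁻¹) * (g ^ n' * k⁻¹ * (g ^ n')⁻¹) * l⁻¹ := by
      rw [commutatorElement_def]
      have : g ^ n' * (g ^ n)⁻¹ = (g ^ n)⁻¹ * g ^ n' :=
        ((Commute.pow_pow_self g n' n).inv_right).eq
      calc k * g ^ n * (l * g ^ n') * (k * g ^ n)⁻¹ * (l * g ^ n')⁻¹
          = k * g ^ n * l * (g ^ n' * (g ^ n)⁻¹) * k⁻¹ * (g ^ n')⁻¹ * l⁻¹ := by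
            simp only [mul_inv_rev, mul_assoc]
        _ = _ := by rw [this]; simp only [mul_assoc]
    rw [e]
    exact mul_mem (mul_mem (mul_mem hk (c2 n l hl)) (c2 n' _ (inv_mem hk))) (inv_mem hl)

end Groups

section Wreath

variable {V : Type} [NormedAddCommGroup V] [InnerProductSpace ℝ V] {κ : Type} [Fintype κ]

lemma lie_mul_apply (f g : V ≃ₗᵢ[ℝ] V) (x : V) : (f * g) x = f (g x) := rfl

lemma lie_inv_apply (f : V ≃ₗᵢ[ℝ] V) (x : V) : f⁻¹ (f x) = x := f.symm_apply_apply x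

lemma lie_apply_inv (f : V ≃ₗᵢ[ℝ] V) (x : V) : f (f⁻¹ x) = x := f.apply_symm_apply x

/-- The isometry `φ` of the product permutes the factors by `h` and acts on them by `s`. -/
def Rel (φ : PiLp 2 (fun _ : κ => V) ≃ₗᵢ[ℝ] PiLp 2 (fun _ : κ => V)) (h : Equiv.Perm κ)
    (s : κ → V ≃ₗᵢ[ℝ] V) : Prop :=
  ∀ v k, φ v k = s k (v (h k))

lemma Rel.mul {φ ψ : PiLp 2 (fun _ : κ => V) ≃ₗᵢ[ℝ] PiLp 2 (fun _ : κ => V)}
    {h h' : Equiv.Perm κ} {s s' : κ → V ≃ₗᵢ[ℝ] V} (a : Rel φ h s) (b : Rel ψ h' s') :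
    Rel (φ * ψ) (h' * h) (fun k => s k * s' (h k)) := by
  intro v k
  rw [lie_mul_apply, a, b]
  rfl

lemma Rel.inv {φ : PiLp 2 (fun _ : κ => V) ≃ₗᵢ[ℝ] PiLp 2 (fun _ : κ => V)}
    {h : Equiv.Perm κ} {s : κ → V ≃ₗᵢ[ℝ] V} (a : Rel φ h s) :
    Rel φ⁻¹ h⁻¹ (fun k => (s (h⁻¹ k))⁻¹) := by
  intro v k
  have := a (φ⁻¹ v) (h⁻¹ k)
  have e' : h (h⁻¹ k) = k := h.apply_symm_apply k
  rw [lie_apply_inv, e'] at this
  rw [this, lie_inv_apply]

/-- The isometry with prescribed permutation and components. -/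
noncomputable def mkW (h : Equiv.Perm κ) (s : κ → V ≃ₗᵢ[ℝ] V) :
    PiLp 2 (fun _ : κ => V) ≃ₗᵢ[ℝ] PiLp 2 (fun _ : κ => V) :=
  (LinearIsometryEquiv.piLpCongrLeft 2 ℝ V h.symm).trans (LinearIsometryEquiv.piLpCongrRight 2 s)

lemma rel_mkW (h : Equiv.Perm κ) (s : κ → V ≃ₗᵢ[ℝ] V) : Rel (mkW h s) h s := fun _ _ => rfl

lemma Rel.eq_mkW {φ : PiLp 2 (fun _ : κ => V) ≃ₗᵢ[ℝ] PiLp 2 (fun _ : κ => V)}
    {h : Equiv.Perm κ} {s : κ → V ≃ₗᵢ[ℝ] V} (a : Rel φ h s) : φ = mkW h s := by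
  ext v k
  rw [a, rel_mkW]

/-- The wreath product of `T` by `K`, acting on the product. -/
def wr (K : Subgroup (Equiv.Perm κ)) (T : Subgroup (V ≃ₗᵢ[ℝ] V)) :
    Subgroup (PiLp 2 (fun _ : κ => V) ≃ₗᵢ[ℝ] PiLp 2 (fun _ : κ => V)) where
  carrier := {φ | ∃ h ∈ K, ∃ s : κ → V ≃ₗᵢ[ℝ] V, (∀ k, s k ∈ T) ∧ Rel φ h s}
  mul_mem' := by
    rintro φ ψ ⟨h, hh, s, hs, a⟩ ⟨h', hh', s', hs', b⟩
    exact ⟨_, mul_mem hh' hh, _, fun k => mul_mem (hs _) (hs' _), a.mul b⟩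
  one_mem' := ⟨1, one_mem _, fun _ => 1, fun _ => one_mem _, fun _ _ => rfl⟩
  inv_mem' := by
    rintro φ ⟨h, hh, s, hs, a⟩
    exact ⟨_, inv_mem hh, _, fun k => inv_mem (hs _), a.inv⟩

lemma FS.wr {K : Subgroup (Equiv.Perm κ)} {T : Subgroup (V ≃ₗᵢ[ℝ] V)} (hK : FS K) (hT : FS T) :
    FS (wr K T) := by
  constructor
  · have : (Pool.Agent.Work.MP_c35292_co.wr K T : Set _) ⊆
        (fun q : Equiv.Perm κ × (κ → V ≃ₗᵢ[ℝ] V) => mkW q.1 q.2) ''
          ((K : Set _) ×ˢ Set.pi Set.univ (fun _ => (T : Set _))) := by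
      rintro φ ⟨h, hh, s, hs, a⟩
      exact ⟨(h, s), ⟨hh, fun k _ => hs k⟩, a.eq_mkW.symm⟩
    exact ((hK.1.prod (Set.Finite.pi fun _ => hT.1)).image _).subset this
  · have h1 : Sol (Pool.Agent.Work.MP_c35292_co.wr (⊥ : Subgroup (Equiv.Perm κ)) T) := by
      refine Sol.ind
        (P := fun T => Sol (Pool.Agent.Work.MP_c35292_co.wr (⊥ : Subgroup (Equiv.Perm κ)) T))
        ?_ ?_ hT.2
      · have : Pool.Agent.Work.MP_c35292_co.wr (⊥ : Subgroup (Equiv.Perm κ))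
            (⊥ : Subgroup (V ≃ₗᵢ[ℝ] V)) = ⊥ := by
          rw [eq_bot_iff]
          rintro φ ⟨h, hh, s, hs, a⟩
          rw [Subgroup.mem_bot] at hh ⊢
          ext v k
          rw [a, hh, Subgroup.mem_bot.mp (hs k)]
          rfl
        rw [this]; exact Sol.bot
      · intro T hT
        refine Sol.step ?_ hT
        rw [Subgroup.commutator_le]
        rintro φ ⟨h, hh, s, hs, a⟩ ψ ⟨h', hh', s', hs', b⟩
        rw [Subgroup.mem_bot] at hh hh'
        subst hh hh'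
        refine ⟨_, ?_, _, ?_, ((a.mul b).mul a.inv).mul b.inv⟩
        · simp
        · intro k
          simpa [commutatorElement_def] using Subgroup.commutator_mem_commutator (hs k) (hs' k)
    refine Sol.ind (P := fun K => Sol (Pool.Agent.Work.MP_c35292_co.wr K T)) h1 ?_ hK.2
    intro K hK
    refine Sol.step ?_ hK
    rw [Subgroup.commutator_le]
    rintro φ ⟨h, hh, s, hs, a⟩ ψ ⟨h', hh', s', hs', b⟩
    refine ⟨_, ?_, _, ?_, ((a.mul b).mul a.inv).mul b.inv⟩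
    · simpa [commutatorElement_def, mul_assoc] using
        Subgroup.commutator_mem_commutator (inv_mem hh') (inv_mem hh)
    · intro k
      exact mul_mem (mul_mem (mul_mem (hs _) (hs' _)) (inv_mem (hs _))) (inv_mem (hs' _))

/-- `y` lies in the orbit of `x` under `T`. -/
def Orb (T : Subgroup (V ≃ₗᵢ[ℝ] V)) (x y : V) : Prop := ∃ g ∈ T, g x = y

lemma Orb.refl (T : Subgroup (V ≃ₗᵢ[ℝ] V)) (x : V) : Orb T x x := ⟨1, one_mem _, rfl⟩

lemma Orb.symm {T : Subgroup (V ≃ₗᵢ[ℝ] V)} {x y : V} (h : Orb T x y) : Orb T y x := by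
  obtain ⟨g, hg, rfl⟩ := h
  exact ⟨g⁻¹, inv_mem hg, lie_inv_apply g x⟩

lemma Orb.trans {T : Subgroup (V ≃ₗᵢ[ℝ] V)} {x y z : V} (h : Orb T x y) (h' : Orb T y z) :
    Orb T x z := by
  obtain ⟨g, hg, rfl⟩ := h
  obtain ⟨g', hg', rfl⟩ := h'
  exact ⟨g' * g, mul_mem hg' hg, rfl⟩

lemma orb_wr {K : Subgroup (Equiv.Perm κ)} {T : Subgroup (V ≃ₗᵢ[ℝ] V)}
    {v w : PiLp 2 (fun _ : κ => V)} (h : Equiv.Perm κ) (hh : h ∈ K)
    (H : ∀ k, Orb T (v (h k)) (w k)) : Orb (wr K T) v w := by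
  choose s hs hs' using H
  refine ⟨mkW h s, ⟨h, hh, s, hs, rel_mkW h s⟩, ?_⟩
  ext k
  rw [rel_mkW, hs']

end Wreath

section Final

variable {V : Type} [NormedAddCommGroup V] [InnerProductSpace ℝ V]

/-- Transport of linear isometries along `e`. -/
noncomputable def transport {n : ℕ} (e : V ≃ₗᵢ[ℝ] EuclideanSpace ℝ (Fin n)) :
    (V ≃ₗᵢ[ℝ] V) →* (EuclideanSpace ℝ (Fin n) ≃ᵢ EuclideanSpace ℝ (Fin n)) where
  toFun w := ((e.symm.trans w).trans e).toIsometryEquiv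
  map_one' := by ext x; simp
  map_mul' w w' := by ext x; simp

lemma transport_apply {n : ℕ} (e : V ≃ₗᵢ[ℝ] EuclideanSpace ℝ (Fin n)) (w : V ≃ₗᵢ[ℝ] V) (x : V) :
    transport e w (e x) = e (w x) := by
  simp [transport]

lemma soluble_orbit {n : ℕ} (e : V ≃ₗᵢ[ℝ] EuclideanSpace ℝ (Fin n))
    {W : Subgroup (V ≃ₗᵢ[ℝ] V)} (hW : FS W) (y₀ : V) :
    IsSolubleSet (e '' {y | Orb W y₀ y}) := by
  refine ⟨?_, W.map (transport e), (hW.2.map _).isSolvable, ?_, ?_⟩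
  · refine Set.Finite.image _ ((hW.1.image (fun g : V ≃ₗᵢ[ℝ] V => g y₀)).subset ?_)
    rintro y ⟨g, hg, rfl⟩
    exact ⟨g, hg, rfl⟩
  · rintro _ ⟨g, hg, rfl⟩
    ext z
    constructor
    · rintro ⟨_, ⟨y, hy, rfl⟩, rfl⟩
      exact ⟨g y, Orb.trans hy ⟨g, hg, rfl⟩, (transport_apply e g y).symm⟩
    · rintro ⟨y, hy, rfl⟩
      refine ⟨e (g⁻¹ y), ⟨g⁻¹ y, Orb.trans hy ⟨g⁻¹, inv_mem hg, rfl⟩, rfl⟩, ?_⟩
      rw [transport_apply, lie_apply_inv]
  · rintro _ ⟨y, hy, rfl⟩ _ ⟨z, hz, rfl⟩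
    obtain ⟨g, hg, rfl⟩ := (Orb.symm hy).trans hz
    exact ⟨_, ⟨g, hg, rfl⟩, transport_apply e g y⟩

lemma Orb.smul {W : Subgroup (V ≃ₗᵢ[ℝ] V)} {x y : V} (h : Orb W x y) (c : ℝ) :
    Orb W (c • x) (c • y) := by
  obtain ⟨g, hg, rfl⟩ := h
  exact ⟨g, hg, by simp⟩

lemma subsoluble_of [FiniteDimensional ℝ V] {d : ℕ} {W : Subgroup (V ≃ₗᵢ[ℝ] V)} (hW : FS W)
    (φ : EuclideanSpace ℝ (Fin d) → V) (c : ℝ) (hc : 0 < c)
    (hφ : ∀ x y, dist (φ x) (φ y) = c * dist x y) (y₀ : V)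
    (X : Set (EuclideanSpace ℝ (Fin d))) (h : ∀ x ∈ X, Orb W y₀ (φ x)) (r : ℝ) (hr : 0 < r) :
    IsSubsoluble ((fun x => r • x) '' X) := by
  let e := (stdOrthonormalBasis ℝ V).repr
  refine ⟨_, _, soluble_orbit e hW ((r / c) • y₀), fun z => e ((r / c) • φ (r⁻¹ • z)), ?_, ?_⟩
  · refine Isometry.of_dist_eq fun x y => ?_
    rw [e.dist_map, dist_smul₀, hφ, dist_smul₀, Real.norm_of_nonneg (by positivity),
      Real.norm_of_nonneg (by positivity)]
    field_simp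
  · rintro _ ⟨_, ⟨x, hx, rfl⟩, rfl⟩
    refine ⟨_, ?_, rfl⟩
    simp only [smul_smul, inv_mul_cancel₀ hr.ne', one_smul]
    exact (h x hx).smul _

end Final

end Pool.Agent.Work.MP_c35292_co
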